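import Mathlib

/-!
# Degree-preserving amalgamation of real zero polynomials in two shared variables fails

The two real zero cubics `p = 1 - x₁² - x₂² + y (1 - x₁²)` and `q = (1 + z) (1 - x₁² - x₂²)` agree on
`y = 0`, `z = 0`, but no real zero polynomial `r(x₁, x₂, y, z)` of degree at most `3` restricts to
both of them. So the answer to the question is negative, already for `d = 3`, `m = n = 1`.
-/

set_option autoImplicit false

open MvPolynomial

namespace Pool.Agent.Results.MP_eea824_ag.NoDegreePreservingAmalgam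

/-- `f` is a real zero polynomial: for every real vector `a`, all complex zeros `l` of
`l ↦ f (l a)` are real. -/
def IsRealZero {σ : Type} (f : MvPolynomial σ ℝ) : Prop :=
  ∀ (a : σ → ℝ) (l : ℂ), aeval (fun i => l * (a i : ℂ)) f = 0 → l.im = 0

/-- For `p` in `ℝ[x, y]` with `x = (x₁, x₂)`, `y = (y₁, ..., y_m)`, the polynomial `p(x, 0)`. -/
noncomputable def setZero {m : ℕ} (p : MvPolynomial (Fin 2 ⊕ Fin m) ℝ) : MvPolynomial (Fin 2) ℝ :=
  aeval (Sum.elim X fun _ => 0) p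

/-- For `r` in `ℝ[x, y, z]`, the polynomial `r(x, y, 0)` in `ℝ[x, y]`. -/
noncomputable def setZZero {m n : ℕ} (r : MvPolynomial (Fin 2 ⊕ (Fin m ⊕ Fin n)) ℝ) :
    MvPolynomial (Fin 2 ⊕ Fin m) ℝ :=
  aeval (Sum.elim (fun i => X (Sum.inl i)) (Sum.elim (fun j => X (Sum.inr j)) fun _ => 0)) r

/-- For `r` in `ℝ[x, y, z]`, the polynomial `r(x, 0, z)` in `ℝ[x, z]`. -/
noncomputable def setYZero {m n : ℕ} (r : MvPolynomial (Fin 2 ⊕ (Fin m ⊕ Fin n)) ℝ) :
    MvPolynomial (Fin 2 ⊕ Fin n) ℝ :=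
  aeval (Sum.elim (fun i => X (Sum.inl i)) (Sum.elim (fun _ => 0) fun k => X (Sum.inr k))) r

/-- The statement of the question. -/
def AmalgamationProperty : Prop :=
  ∀ (d m n : ℕ) (p : MvPolynomial (Fin 2 ⊕ Fin m) ℝ) (q : MvPolynomial (Fin 2 ⊕ Fin n) ℝ),
    IsRealZero p → IsRealZero q → p.totalDegree ≤ d → q.totalDegree ≤ d →
    setZero p = setZero q →
    ∃ r : MvPolynomial (Fin 2 ⊕ (Fin m ⊕ Fin n)) ℝ,
      IsRealZero r ∧ r.totalDegree ≤ d ∧ setZZero r = p ∧ setYZero r = q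

/-- a real cubic all of whose complex roots are real has nonnegative discriminant -/
theorem disc_nonneg (A B C : ℝ)
    (h : ∀ t : ℂ, t ^ 3 + A * t ^ 2 + B * t + C = 0 → t.im = 0) :
    0 ≤ A ^ 2 * B ^ 2 - 4 * B ^ 3 - 4 * A ^ 3 * C + 18 * A * B * C - 27 * C ^ 2 := by
  -- first root
  obtain ⟨t1, ht1⟩ : ∃ t : ℂ, t ^ 3 + A * t ^ 2 + B * t + C = 0 := by
    have hdeg : (Polynomial.X ^ 3 + Polynomial.C (A : ℂ) * Polynomial.X ^ 2 +
        Polynomial.C (B : ℂ) * Polynomial.X + Polynomial.C (C : ℂ)).degree = 3 := by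
      compute_degree!
    obtain ⟨t, ht⟩ := IsAlgClosed.exists_root (Polynomial.X ^ 3 + Polynomial.C (A : ℂ) *
        Polynomial.X ^ 2 + Polynomial.C (B : ℂ) * Polynomial.X + Polynomial.C (C : ℂ))
        (by rw [hdeg]; norm_num)
    refine ⟨t, ?_⟩
    simpa [Polynomial.IsRoot.def] using ht
  have h1 := h t1 ht1
  obtain ⟨r1, rfl⟩ : ∃ r : ℝ, t1 = (r : ℂ) :=
    ⟨t1.re, Complex.ext (by simp) (by simp [h1])⟩
  have hr1 : r1 ^ 3 + A * r1 ^ 2 + B * r1 + C = 0 := by exact_mod_cast ht1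
  -- second root
  obtain ⟨t2, ht2⟩ : ∃ t : ℂ, t ^ 2 + (A + r1 : ℝ) * t + (B + A * r1 + r1 ^ 2 : ℝ) = 0 := by
    have hdeg : (Polynomial.X ^ 2 + Polynomial.C ((A + r1 : ℝ) : ℂ) * Polynomial.X +
        Polynomial.C ((B + A * r1 + r1 ^ 2 : ℝ) : ℂ)).degree = 2 := by
      compute_degree!
    obtain ⟨t, ht⟩ := IsAlgClosed.exists_root (Polynomial.X ^ 2 + Polynomial.C
        ((A + r1 : ℝ) : ℂ) * Polynomial.X + Polynomial.C ((B + A * r1 + r1 ^ 2 : ℝ) : ℂ))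
        (by rw [hdeg]; norm_num)
    refine ⟨t, ?_⟩
    simpa [Polynomial.IsRoot.def] using ht
  have hC : (C : ℂ) = -(r1 ^ 3 + A * r1 ^ 2 + B * r1) := by
    have : C = -(r1 ^ 3 + A * r1 ^ 2 + B * r1) := by linarith
    rw [this]; push_cast; ring
  have h2 := h t2 (by
    have : t2 ^ 3 + A * t2 ^ 2 + B * t2 + C =
        (t2 - r1) * (t2 ^ 2 + (A + r1 : ℝ) * t2 + (B + A * r1 + r1 ^ 2 : ℝ)) := by
      rw [hC]; push_cast; ring
    rw [this, ht2, mul_zero])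
  obtain ⟨r2, rfl⟩ : ∃ r : ℝ, t2 = (r : ℂ) :=
    ⟨t2.re, Complex.ext (by simp) (by simp [h2])⟩
  have hr2 : r2 ^ 2 + (A + r1) * r2 + (B + A * r1 + r1 ^ 2) = 0 := by exact_mod_cast ht2
  obtain ⟨r3, hr3⟩ : ∃ r3 : ℝ, A = -(r1 + r2 + r3) := ⟨-(A + r1 + r2), by ring⟩
  have hB : B = r1 * r2 + r1 * r3 + r2 * r3 := by
    subst hr3
    linarith
  have hC' : C = -(r1 * r2 * r3) := by
    subst hr3 hB
    linarith
  subst hr3 hB hC'
  have : (-(r1 + r2 + r3)) ^ 2 * (r1 * r2 + r1 * r3 + r2 * r3) ^ 2 -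
      4 * (r1 * r2 + r1 * r3 + r2 * r3) ^ 3 - 4 * (-(r1 + r2 + r3)) ^ 3 * (-(r1 * r2 * r3)) +
      18 * (-(r1 + r2 + r3)) * (r1 * r2 + r1 * r3 + r2 * r3) * (-(r1 * r2 * r3)) -
      27 * (-(r1 * r2 * r3)) ^ 2 = ((r1 - r2) * (r1 - r3) * (r2 - r3)) ^ 2 := by ring
  rw [this]
  positivity

theorem eq_zero_of_forall {E : ℝ → ℝ} (hE : Continuous E) (h : ∀ c, 0 ≤ c * E c) : E 0 = 0 := by
  apply le_antisymm
  · have : Filter.Tendsto E (nhdsWithin 0 (Set.Iio 0)) (nhds (E 0)) :=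
      hE.continuousAt.tendsto.mono_left nhdsWithin_le_nhds
    refine le_of_tendsto this ?_
    filter_upwards [self_mem_nhdsWithin] with c hc
    have := h c
    have hc' : c < 0 := hc
    nlinarith
  · have : Filter.Tendsto E (nhdsWithin 0 (Set.Ioi 0)) (nhds (E 0)) :=
      hE.continuousAt.tendsto.mono_left nhdsWithin_le_nhds
    refine ge_of_tendsto this ?_
    filter_upwards [self_mem_nhdsWithin] with c hc
    have := h c
    have hc' : 0 < c := hc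
    nlinarith

/-- `p = 1 - x₁² - x₂² + y (1 - x₁²)` -/
noncomputable def p : MvPolynomial (Fin 2 ⊕ Fin 1) ℝ :=
  1 - X (Sum.inl 0) ^ 2 - X (Sum.inl 1) ^ 2 + X (Sum.inr 0) * (1 - X (Sum.inl 0) ^ 2)

/-- `q = (1 + z) (1 - x₁² - x₂²)` -/
noncomputable def q : MvPolynomial (Fin 2 ⊕ Fin 1) ℝ :=
  (1 + X (Sum.inr 0)) * (1 - X (Sum.inl 0) ^ 2 - X (Sum.inl 1) ^ 2)

abbrev S : Type := Fin 2 ⊕ (Fin 1 ⊕ Fin 1)

/-- vector with the four coordinates -/
def vec (x1 x2 y z : ℂ) : S → ℂ := Sum.elim ![x1, x2] (Sum.elim ![y] ![z])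

theorem mixed (r : MvPolynomial S ℝ) (hr : r.totalDegree ≤ 3) :
    ∃ s0 s1 s2 s3 s4 : ℝ, ∀ x1 x2 y z : ℂ,
      aeval (vec x1 x2 y z) r - aeval (vec x1 x2 y 0) r - aeval (vec x1 x2 0 z) r +
        aeval (vec x1 x2 0 0) r = y * z * (s0 + s1 * x1 + s2 * x2 + s3 * y + s4 * z) := by
  rw [r.as_sum]
  have key : ∀ m ∈ r.support, ∃ s0 s1 s2 s3 s4 : ℝ, ∀ x1 x2 y z : ℂ,
      aeval (vec x1 x2 y z) (monomial m (coeff m r)) -
        aeval (vec x1 x2 y 0) (monomial m (coeff m r)) -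
        aeval (vec x1 x2 0 z) (monomial m (coeff m r)) +
        aeval (vec x1 x2 0 0) (monomial m (coeff m r)) =
          y * z * (s0 + s1 * x1 + s2 * x2 + s3 * y + s4 * z) := by
    intro m hm
    have hdeg : (m.sum fun _ e => e) ≤ 3 := (le_totalDegree hm).trans hr
    have hdeg' : m (Sum.inl 0) + m (Sum.inl 1) + m (Sum.inr (Sum.inl 0)) +
        m (Sum.inr (Sum.inr 0)) ≤ 3 := by
      rw [Finsupp.sum_fintype _ _ (fun _ => rfl)] at hdeg
      simpa [Fintype.sum_sum_type, Fin.sum_univ_two, add_assoc] using hdeg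
    have hev : ∀ x1 x2 y z : ℂ, aeval (vec x1 x2 y z) (monomial m (coeff m r)) =
        ((coeff m r : ℝ) : ℂ) * (x1 ^ m (Sum.inl 0) * x2 ^ m (Sum.inl 1) *
          y ^ m (Sum.inr (Sum.inl 0)) * z ^ m (Sum.inr (Sum.inr 0))) := by
      intro x1 x2 y z
      rw [aeval_monomial, Finsupp.prod_fintype _ _ (fun _ => pow_zero _)]
      simp [vec, Fintype.prod_sum_type, Fin.prod_univ_two, mul_assoc]
    simp only [hev]
    generalize coeff m r = a
    generalize m (Sum.inl 0) = i at *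
    generalize m (Sum.inl 1) = j at *
    generalize m (Sum.inr (Sum.inl 0)) = k at *
    generalize m (Sum.inr (Sum.inr 0)) = l at *
    rcases Nat.eq_zero_or_pos k with rfl | hk
    · refine ⟨0, 0, 0, 0, 0, fun x1 x2 y z => ?_⟩
      push_cast; ring
    rcases Nat.eq_zero_or_pos l with rfl | hl
    · refine ⟨0, 0, 0, 0, 0, fun x1 x2 y z => ?_⟩
      push_cast; ring
    have hcases : (i = 0 ∧ j = 0 ∧ k = 1 ∧ l = 1) ∨ (i = 1 ∧ j = 0 ∧ k = 1 ∧ l = 1) ∨
        (i = 0 ∧ j = 1 ∧ k = 1 ∧ l = 1) ∨ (i = 0 ∧ j = 0 ∧ k = 2 ∧ l = 1) ∨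
        (i = 0 ∧ j = 0 ∧ k = 1 ∧ l = 2) := by omega
    rcases hcases with ⟨rfl, rfl, rfl, rfl⟩ | ⟨rfl, rfl, rfl, rfl⟩ | ⟨rfl, rfl, rfl, rfl⟩ |
      ⟨rfl, rfl, rfl, rfl⟩ | ⟨rfl, rfl, rfl, rfl⟩
    · exact ⟨a, 0, 0, 0, 0, fun x1 x2 y z => by push_cast; ring⟩
    · exact ⟨0, a, 0, 0, 0, fun x1 x2 y z => by push_cast; ring⟩
    · exact ⟨0, 0, a, 0, 0, fun x1 x2 y z => by push_cast; ring⟩
    · exact ⟨0, 0, 0, a, 0, fun x1 x2 y z => by push_cast; ring⟩
    · exact ⟨0, 0, 0, 0, a, fun x1 x2 y z => by push_cast; ring⟩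
  refine Finset.sum_induction (fun m => monomial m (coeff m r))
    (fun f => ∃ s0 s1 s2 s3 s4 : ℝ, ∀ x1 x2 y z : ℂ,
      aeval (vec x1 x2 y z) f - aeval (vec x1 x2 y 0) f - aeval (vec x1 x2 0 z) f +
        aeval (vec x1 x2 0 0) f = y * z * (s0 + s1 * x1 + s2 * x2 + s3 * y + s4 * z))
    ?_ ?_ key
  · rintro f g ⟨s0, s1, s2, s3, s4, hs⟩ ⟨t0, t1, t2, t3, t4, ht⟩
    refine ⟨s0 + t0, s1 + t1, s2 + t2, s3 + t3, s4 + t4, fun x1 x2 y z => ?_⟩
    have h1 := hs x1 x2 y z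
    have h2 := ht x1 x2 y z
    simp only [map_add]
    push_cast
    linear_combination h1 + h2
  · exact ⟨0, 0, 0, 0, 0, fun x1 x2 y z => by simp⟩

theorem not_exists (r : MvPolynomial S ℝ) (hr : r.totalDegree ≤ 3) (hz : setZZero r = p)
    (hy : setYZero r = q) : ¬ IsRealZero r := by
  intro hRZ
  obtain ⟨s0, s1, s2, s3, s4, hs⟩ := mixed r hr
  have hp : ∀ x1 x2 y : ℂ, aeval (vec x1 x2 y 0) r =
      1 - x1 ^ 2 - x2 ^ 2 + y * (1 - x1 ^ 2) := by
    intro x1 x2 y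
    have h := congrArg (aeval (Sum.elim ![x1, x2] ![y] : Fin 2 ⊕ Fin 1 → ℂ)) hz
    rw [setZZero, ← AlgHom.comp_apply, comp_aeval] at h
    have hv : (fun i => (aeval (Sum.elim ![x1, x2] ![y] : Fin 2 ⊕ Fin 1 → ℂ))
        (Sum.elim (fun i => X (Sum.inl i)) (Sum.elim (fun j => X (Sum.inr j)) fun _ => 0) i :
          MvPolynomial (Fin 2 ⊕ Fin 1) ℝ)) = vec x1 x2 y 0 := by
      funext i
      rcases i with i | i | i
      · simp [vec]
      · simp [vec]
      · fin_cases i; simp [vec]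
    rw [hv] at h
    rw [h, p]
    simp
  have hq : ∀ x1 x2 z : ℂ, aeval (vec x1 x2 0 z) r =
      (1 + z) * (1 - x1 ^ 2 - x2 ^ 2) := by
    intro x1 x2 z
    have h := congrArg (aeval (Sum.elim ![x1, x2] ![z] : Fin 2 ⊕ Fin 1 → ℂ)) hy
    rw [setYZero, ← AlgHom.comp_apply, comp_aeval] at h
    have hv : (fun i => (aeval (Sum.elim ![x1, x2] ![z] : Fin 2 ⊕ Fin 1 → ℂ))
        (Sum.elim (fun i => X (Sum.inl i)) (Sum.elim (fun _ => 0) fun k => X (Sum.inr k)) i :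
          MvPolynomial (Fin 2 ⊕ Fin 1) ℝ)) = vec x1 x2 0 z := by
      funext i
      rcases i with i | i | i
      · simp [vec]
      · fin_cases i; simp [vec]
      · simp [vec]
    rw [hv] at h
    rw [h, q]
    simp
  have hval : ∀ x1 x2 y z : ℂ, aeval (vec x1 x2 y z) r =
      1 - x1 ^ 2 - x2 ^ 2 + y * (1 - x1 ^ 2) + z * (1 - x1 ^ 2 - x2 ^ 2) +
        y * z * (s0 + s1 * x1 + s2 * x2 + s3 * y + s4 * z) := by
    intro x1 x2 y z
    have h := hs x1 x2 y z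
    rw [hp, hq, hp] at h
    linear_combination h
  -- the cubic in direction `(a1, a2, b, c)` is real rooted
  have hcubic : ∀ a1 a2 b c : ℝ,
      0 ≤ (b + c) ^ 2 * (s0 * b * c - a1 ^ 2 - a2 ^ 2) ^ 2 -
        4 * (s0 * b * c - a1 ^ 2 - a2 ^ 2) ^ 3 -
        4 * (b + c) ^ 3 * (-b * a1 ^ 2 - c * (a1 ^ 2 + a2 ^ 2) +
          b * c * (s1 * a1 + s2 * a2 + s3 * b + s4 * c)) +
        18 * (b + c) * (s0 * b * c - a1 ^ 2 - a2 ^ 2) * (-b * a1 ^ 2 - c * (a1 ^ 2 + a2 ^ 2) +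
          b * c * (s1 * a1 + s2 * a2 + s3 * b + s4 * c)) -
        27 * (-b * a1 ^ 2 - c * (a1 ^ 2 + a2 ^ 2) +
          b * c * (s1 * a1 + s2 * a2 + s3 * b + s4 * c)) ^ 2 := by
    intro a1 a2 b c
    apply disc_nonneg
    intro t ht
    by_cases ht0 : t = 0
    · simp [ht0]
    have h := hRZ (Sum.elim ![a1, a2] (Sum.elim ![b] ![c])) t⁻¹ (by
      have hv : (fun i => t⁻¹ * (((Sum.elim ![a1, a2] (Sum.elim ![b] ![c]) : S → ℝ) i : ℝ) : ℂ)) =
          vec (t⁻¹ * a1) (t⁻¹ * a2) (t⁻¹ * b) (t⁻¹ * c) := by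
        funext i
        rcases i with i | i | i
        · fin_cases i <;> simp [vec]
        · fin_cases i; simp [vec]
        · fin_cases i; simp [vec]
      rw [hv, hval]
      have : (1 - (t⁻¹ * a1) ^ 2 - (t⁻¹ * a2) ^ 2 + t⁻¹ * b * (1 - (t⁻¹ * a1) ^ 2) +
          t⁻¹ * c * (1 - (t⁻¹ * a1) ^ 2 - (t⁻¹ * a2) ^ 2) +
          t⁻¹ * b * (t⁻¹ * c) * (s0 + s1 * (t⁻¹ * a1) + s2 * (t⁻¹ * a2) + s3 * (t⁻¹ * b) +
            s4 * (t⁻¹ * c)) : ℂ) = (t⁻¹) ^ 3 * (t ^ 3 + ((b + c : ℝ) : ℂ) * t ^ 2 +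
          ((s0 * b * c - a1 ^ 2 - a2 ^ 2 : ℝ) : ℂ) * t +
          ((-b * a1 ^ 2 - c * (a1 ^ 2 + a2 ^ 2) +
            b * c * (s1 * a1 + s2 * a2 + s3 * b + s4 * c) : ℝ) : ℂ)) := by
        push_cast
        field_simp
        ring
      rw [this, ht, mul_zero])
    rw [Complex.inv_im, div_eq_zero_iff] at h
    rcases h with h | h
    · linarith
    · exact absurd (Complex.normSq_eq_zero.1 h) ht0
  -- first relations
  have e1 : s1 + s3 - s0 = 0 := by
    have := eq_zero_of_forall (E := fun c => (1 - c) * (32 * ((s1 + s3 * (1 - c) + s4 * c) - s0) +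
      c * (1 - c) * (13 * s0 ^ 2 + 18 * s0 * (s1 + s3 * (1 - c) + s4 * c) -
        27 * (s1 + s3 * (1 - c) + s4 * c) ^ 2) - 4 * s0 ^ 3 * (c * (1 - c)) ^ 2)) (by fun_prop)
      (fun c => by
        have h := hcubic 1 0 (1 - c) c
        have e : ((1 - c) + c) ^ 2 * (s0 * (1 - c) * c - 1 ^ 2 - 0 ^ 2) ^ 2 -
            4 * (s0 * (1 - c) * c - 1 ^ 2 - 0 ^ 2) ^ 3 -
            4 * ((1 - c) + c) ^ 3 * (-(1 - c) * 1 ^ 2 - c * (1 ^ 2 + 0 ^ 2) +
              (1 - c) * c * (s1 * 1 + s2 * 0 + s3 * (1 - c) + s4 * c)) +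
            18 * ((1 - c) + c) * (s0 * (1 - c) * c - 1 ^ 2 - 0 ^ 2) *
              (-(1 - c) * 1 ^ 2 - c * (1 ^ 2 + 0 ^ 2) +
              (1 - c) * c * (s1 * 1 + s2 * 0 + s3 * (1 - c) + s4 * c)) -
            27 * (-(1 - c) * 1 ^ 2 - c * (1 ^ 2 + 0 ^ 2) +
              (1 - c) * c * (s1 * 1 + s2 * 0 + s3 * (1 - c) + s4 * c)) ^ 2 =
            c * ((1 - c) * (32 * ((s1 + s3 * (1 - c) + s4 * c) - s0) +
              c * (1 - c) * (13 * s0 ^ 2 + 18 * s0 * (s1 + s3 * (1 - c) + s4 * c) -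
              27 * (s1 + s3 * (1 - c) + s4 * c) ^ 2) - 4 * s0 ^ 3 * (c * (1 - c)) ^ 2)) := by
          ring
        rw [e] at h
        exact h)
    simp only [sub_zero, mul_one, mul_zero, add_zero, zero_mul] at this
    nlinarith
  have e2 : s1 + s4 - s0 = 0 := by
    have := eq_zero_of_forall (E := fun c => (1 - c) * (32 * ((s1 + s4 * (1 - c) + s3 * c) - s0) +
      c * (1 - c) * (13 * s0 ^ 2 + 18 * s0 * (s1 + s4 * (1 - c) + s3 * c) -
        27 * (s1 + s4 * (1 - c) + s3 * c) ^ 2) - 4 * s0 ^ 3 * (c * (1 - c)) ^ 2)) (by fun_prop)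
      (fun c => by
        have h := hcubic 1 0 c (1 - c)
        have e : (c + (1 - c)) ^ 2 * (s0 * c * (1 - c) - 1 ^ 2 - 0 ^ 2) ^ 2 -
            4 * (s0 * c * (1 - c) - 1 ^ 2 - 0 ^ 2) ^ 3 -
            4 * (c + (1 - c)) ^ 3 * (-c * 1 ^ 2 - (1 - c) * (1 ^ 2 + 0 ^ 2) +
              c * (1 - c) * (s1 * 1 + s2 * 0 + s3 * c + s4 * (1 - c))) +
            18 * (c + (1 - c)) * (s0 * c * (1 - c) - 1 ^ 2 - 0 ^ 2) *
              (-c * 1 ^ 2 - (1 - c) * (1 ^ 2 + 0 ^ 2) +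
              c * (1 - c) * (s1 * 1 + s2 * 0 + s3 * c + s4 * (1 - c))) -
            27 * (-c * 1 ^ 2 - (1 - c) * (1 ^ 2 + 0 ^ 2) +
              c * (1 - c) * (s1 * 1 + s2 * 0 + s3 * c + s4 * (1 - c))) ^ 2 =
            c * ((1 - c) * (32 * ((s1 + s4 * (1 - c) + s3 * c) - s0) +
              c * (1 - c) * (13 * s0 ^ 2 + 18 * s0 * (s1 + s4 * (1 - c) + s3 * c) -
              27 * (s1 + s4 * (1 - c) + s3 * c) ^ 2) - 4 * s0 ^ 3 * (c * (1 - c)) ^ 2)) := by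
          ring
        rw [e] at h
        exact h)
    simp only [sub_zero, mul_one, mul_zero, add_zero, zero_mul] at this
    nlinarith
  have e3 : -s1 + s3 - s0 = 0 := by
    have := eq_zero_of_forall (E := fun c => (1 - c) * (32 * ((-s1 + s3 * (1 - c) + s4 * c) - s0) +
      c * (1 - c) * (13 * s0 ^ 2 + 18 * s0 * (-s1 + s3 * (1 - c) + s4 * c) -
        27 * (-s1 + s3 * (1 - c) + s4 * c) ^ 2) - 4 * s0 ^ 3 * (c * (1 - c)) ^ 2)) (by fun_prop)
      (fun c => by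
        have h := hcubic (-1) 0 (1 - c) c
        have e : ((1 - c) + c) ^ 2 * (s0 * (1 - c) * c - (-1) ^ 2 - 0 ^ 2) ^ 2 -
            4 * (s0 * (1 - c) * c - (-1) ^ 2 - 0 ^ 2) ^ 3 -
            4 * ((1 - c) + c) ^ 3 * (-(1 - c) * (-1) ^ 2 - c * ((-1) ^ 2 + 0 ^ 2) +
              (1 - c) * c * (s1 * (-1) + s2 * 0 + s3 * (1 - c) + s4 * c)) +
            18 * ((1 - c) + c) * (s0 * (1 - c) * c - (-1) ^ 2 - 0 ^ 2) *
              (-(1 - c) * (-1) ^ 2 - c * ((-1) ^ 2 + 0 ^ 2) +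
              (1 - c) * c * (s1 * (-1) + s2 * 0 + s3 * (1 - c) + s4 * c)) -
            27 * (-(1 - c) * (-1) ^ 2 - c * ((-1) ^ 2 + 0 ^ 2) +
              (1 - c) * c * (s1 * (-1) + s2 * 0 + s3 * (1 - c) + s4 * c)) ^ 2 =
            c * ((1 - c) * (32 * ((-s1 + s3 * (1 - c) + s4 * c) - s0) +
              c * (1 - c) * (13 * s0 ^ 2 + 18 * s0 * (-s1 + s3 * (1 - c) + s4 * c) -
              27 * (-s1 + s3 * (1 - c) + s4 * c) ^ 2) - 4 * s0 ^ 3 * (c * (1 - c)) ^ 2)) := by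
          ring
        rw [e] at h
        exact h)
    simp only [sub_zero, mul_one, mul_zero, add_zero, zero_mul] at this
    nlinarith
  have hs1 : s1 = 0 := by linarith
  have hs3 : s3 = s0 := by linarith
  have hs4 : s4 = s0 := by linarith
  subst hs1 hs3 hs4
  -- `s0 = 0`: the cubic for `a1 = a2 = 0` is `(t + b + c) (t ^ 2 + s0 b c)`
  have hs0 : s4 = 0 := by
    have h1 := hcubic 0 0 1 1
    have h2 := hcubic 0 0 1 (-1)
    have h3 : 0 ≤ -s4 * (4 + s4) ^ 2 := by nlinarith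
    have h4 : 0 ≤ s4 ^ 3 := by nlinarith
    by_contra hne
    have h5 : 0 ≤ s4 := by
      by_contra hneg
      push Not at hneg
      nlinarith [mul_pos_of_neg_of_neg hneg hneg, sq_nonneg s4]
    have h6 : 0 < s4 := lt_of_le_of_ne h5 (Ne.symm hne)
    nlinarith [mul_pos h6 (pow_pos (by linarith : (0 : ℝ) < 4 + s4) 2)]
  subst hs0
  have h1 := hcubic 0 1 (-1) 1
  have h2 := hcubic 0 1 1 (-1)
  nlinarith [sq_nonneg s2]

theorem p_realZero : IsRealZero p := by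
  intro a l hl
  simp only [p, map_add, map_sub, map_mul, map_pow, map_one, aeval_X] at hl
  set a1 := a (Sum.inl 0) with ha1
  set a2 := a (Sum.inl 1) with ha2
  set b := a (Sum.inr 0) with hb
  -- `0 = conj(t) stuff`; use that the associated symmetric matrix is real symmetric
  by_contra him
  have hl0 : l ≠ 0 := by
    rintro rfl
    exact him rfl
  -- put `t = 1 / l`
  obtain ⟨t, ht⟩ : ∃ t : ℂ, t = l⁻¹ := ⟨_, rfl⟩
  have htim : t.im ≠ 0 := by
    rw [ht, Complex.inv_im]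
    exact div_ne_zero (neg_ne_zero.2 him) (fun h => hl0 (Complex.normSq_eq_zero.1 h))
  have hcub : (t ^ 2 - a1 ^ 2) * (t + b) = a2 ^ 2 * t := by
    have h2 : l⁻¹ ^ 3 * (1 - (l * a1) ^ 2 - (l * a2) ^ 2 + l * b * (1 - (l * a1) ^ 2)) = 0 := by
      rw [hl, mul_zero]
    have h3 : (l⁻¹ ^ 3 * (1 - (l * a1) ^ 2 - (l * a2) ^ 2 + l * b * (1 - (l * a1) ^ 2)) : ℂ) =
        (t ^ 2 - a1 ^ 2) * (t + b) - a2 ^ 2 * t := by
      rw [ht]
      field_simp
      ring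
    rw [h3] at h2
    linear_combination h2
  have hne1 : t - a1 ≠ 0 := fun h => htim (by
    have := congrArg Complex.im h
    simpa using this)
  have hne2 : t + a1 ≠ 0 := fun h => htim (by
    have := congrArg Complex.im h
    simpa using this)
  -- t + b = (a2^2 / 2) (1 / (t - a1) + 1 / (t + a1))
  have hfrac : t + b = a2 ^ 2 / 2 * ((t - a1)⁻¹ + (t + a1)⁻¹) := by
    field_simp
    linear_combination 2 * hcub
  have him2 := congrArg Complex.im hfrac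
  have e2 : (a2 : ℂ) ^ 2 / 2 = ((a2 ^ 2 / 2 : ℝ) : ℂ) := by push_cast; ring
  rw [e2, Complex.im_ofReal_mul, Complex.add_im, Complex.add_im, Complex.inv_im, Complex.inv_im,
    Complex.sub_im, Complex.add_im, Complex.ofReal_im, Complex.ofReal_im, sub_zero,
    add_zero] at him2
  have hn1 : 0 < Complex.normSq (t - a1) := Complex.normSq_pos.2 hne1
  have hn2 : 0 < Complex.normSq (t + a1) := Complex.normSq_pos.2 hne2
  have h4 : t.im * (1 + a2 ^ 2 / 2 * ((Complex.normSq (t - a1))⁻¹ +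
      (Complex.normSq (t + a1))⁻¹)) = 0 := by
    rw [div_eq_mul_inv, div_eq_mul_inv] at him2
    linear_combination him2
  rcases mul_eq_zero.1 h4 with h5 | h5
  · exact htim h5
  · have : 0 < 1 + a2 ^ 2 / 2 * ((Complex.normSq (t - a1))⁻¹ +
      (Complex.normSq (t + a1))⁻¹) := by positivity
    linarith

theorem q_realZero : IsRealZero q := by
  intro a l hl
  simp only [q, map_add, map_sub, map_mul, map_pow, map_one, aeval_X] at hl
  set a1 := a (Sum.inl 0) with ha1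
  set a2 := a (Sum.inl 1) with ha2
  set b := a (Sum.inr 0) with hb
  rcases mul_eq_zero.1 hl with h | h
  · have h1 := congrArg Complex.re h
    have h2 := congrArg Complex.im h
    simp at h1 h2
    rcases h2 with h2 | h2
    · exact h2
    · rw [h2] at h1
      simp at h1
  · have h1 := congrArg Complex.re h
    have h2 := congrArg Complex.im h
    simp [pow_two] at h1 h2
    have h3 : l.re * l.im * (a1 ^ 2 + a2 ^ 2) = 0 := by nlinarith
    have h4 : (l.re ^ 2 - l.im ^ 2) * (a1 ^ 2 + a2 ^ 2) = 1 := by nlinarith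
    have h5 : a1 ^ 2 + a2 ^ 2 ≠ 0 := fun h0 => by rw [h0] at h4; simp at h4
    rcases mul_eq_zero.1 h3 with h6 | h6
    · rcases mul_eq_zero.1 h6 with h7 | h7
      · rw [h7] at h4
        nlinarith [sq_nonneg l.im, sq_nonneg a1, sq_nonneg a2,
          mul_nonneg (sq_nonneg l.im) (add_nonneg (sq_nonneg a1) (sq_nonneg a2))]
      · exact h7
    · exact absurd h6 h5

theorem totalDegree_p : p.totalDegree ≤ 3 := by
  unfold p
  refine (totalDegree_add _ _).trans (max_le ?_ ?_)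
  · refine (totalDegree_sub _ _).trans (max_le ?_ ?_)
    · refine (totalDegree_sub _ _).trans (max_le ?_ ?_)
      · simp
      · rw [totalDegree_X_pow]; norm_num
    · rw [totalDegree_X_pow]; norm_num
  · refine (totalDegree_mul _ _).trans ?_
    have h1 : (1 - X (Sum.inl 0) ^ 2 : MvPolynomial (Fin 2 ⊕ Fin 1) ℝ).totalDegree ≤ 2 := by
      refine (totalDegree_sub _ _).trans (max_le ?_ ?_)
      · simp
      · rw [totalDegree_X_pow]
    rw [totalDegree_X]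
    omega

theorem totalDegree_q : q.totalDegree ≤ 3 := by
  unfold q
  refine (totalDegree_mul _ _).trans ?_
  have h1 : (1 - X (Sum.inl 0) ^ 2 - X (Sum.inl 1) ^ 2 :
      MvPolynomial (Fin 2 ⊕ Fin 1) ℝ).totalDegree ≤ 2 := by
    refine (totalDegree_sub _ _).trans (max_le ?_ ?_)
    · refine (totalDegree_sub _ _).trans (max_le ?_ ?_)
      · simp
      · rw [totalDegree_X_pow]
    · rw [totalDegree_X_pow]
  have h2 : (1 + X (Sum.inr 0) : MvPolynomial (Fin 2 ⊕ Fin 1) ℝ).totalDegree ≤ 1 := by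
    refine (totalDegree_add _ _).trans (max_le ?_ ?_)
    · simp
    · rw [totalDegree_X]
  omega

theorem agree : setZero p = setZero q := by
  simp [setZero, p, q]

/-- The amalgamation property of the question fails: the two real zero polynomials
`p = 1 - x₁² - x₂² + y (1 - x₁²)` and `q = (1 + z) (1 - x₁² - x₂²)` of degree `3` agree for
`y = 0`, `z = 0`, but there is no real zero polynomial `r` of degree at most `3` with
`r(x, y, 0) = p` and `r(x, 0, z) = q`. -/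
theorem result :
    ¬ AmalgamationProperty ∧
    (IsRealZero p ∧ IsRealZero q ∧ p.totalDegree ≤ 3 ∧ q.totalDegree ≤ 3 ∧
      setZero p = setZero q ∧
      ¬ ∃ r : MvPolynomial (Fin 2 ⊕ (Fin 1 ⊕ Fin 1)) ℝ,
        IsRealZero r ∧ r.totalDegree ≤ 3 ∧ setZZero r = p ∧ setYZero r = q) := by
  have h : ¬ ∃ r : MvPolynomial (Fin 2 ⊕ (Fin 1 ⊕ Fin 1)) ℝ,
        IsRealZero r ∧ r.totalDegree ≤ 3 ∧ setZZero r = p ∧ setYZero r = q := by
    rintro ⟨r, h1, h2, h3, h4⟩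
    exact not_exists r h2 h3 h4 h1
  exact ⟨fun H => h (H 3 1 1 p q p_realZero q_realZero totalDegree_p totalDegree_q agree),
    p_realZero, q_realZero, totalDegree_p, totalDegree_q, agree, h⟩

end Pool.Agent.Results.MP_eea824_ag.NoDegreePreservingAmalgam
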